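import Pool.Agent.K1H32.FE.Stm

/-!
# Project MP_56e4d4_pr (helper32): S_LIFT, lifting the data from `PSL(2, R)` to `SL(2, R)`
-/

set_option autoImplicit false

open Filter Topology Matrix

namespace Pool.Agent.K1H12.FE

open Pool.Agent.K1H32.FE

/-- the projection -/
abbrev pr (g : SL) : PSL := QuotientGroup.mk g

lemma center_iff (g : SL) : g ∈ Subgroup.center SL ↔ g = 1 ∨ g = -1 := by
  rw [Matrix.SpecialLinearGroup.mem_center_iff]
  constructor
  · rintro ⟨r, hr, h⟩
    have hr' : r = 1 ∨ r = -1 := by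
      rw [Fintype.card_fin] at hr
      have h1 : (r - 1) * (r + 1) = 0 := by linear_combination hr
      rcases mul_eq_zero.1 h1 with h2 | h2
      · left; linarith
      · right; linarith
    rcases hr' with rfl | rfl
    · left
      apply Subtype.ext
      rw [← h]
      simp
    · right
      apply Subtype.ext
      rw [← h]
      ext i k
      fin_cases i <;> fin_cases k <;> simp
  · rintro (rfl | rfl)
    · exact ⟨1, by simp, by simp⟩
    · refine ⟨-1, by simp, ?_⟩
      ext i k
      fin_cases i <;> fin_cases k <;> simp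

lemma pr_eq_iff (g h : SL) : pr g = pr h ↔ h = g ∨ h = -g := by
  rw [QuotientGroup.eq, center_iff]
  constructor
  · rintro (h1 | h1)
    · left
      exact (inv_mul_eq_one.1 h1).symm
    · right
      rw [inv_mul_eq_iff_eq_mul] at h1
      rw [h1]
      simp
  · rintro (rfl | rfl)
    · left
      simp
    · right
      simp

lemma pr_cont : Continuous pr := continuous_quot_mk

lemma pr_open : IsOpenMap pr := QuotientGroup.isOpenMap_coe

instance : T2Space PSL := by
  have hc : IsClosed ((Subgroup.center SL : Subgroup SL) : Set SL) := by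
    have : ((Subgroup.center SL : Subgroup SL) : Set SL) = {1, -1} := by
      ext g
      simp only [SetLike.mem_coe, Set.mem_insert_iff, Set.mem_singleton_iff]
      exact center_iff g
    rw [this]
    exact (Set.toFinite _).isClosed
  have := hc
  infer_instance

/-- the set of the matrices whose entry `(a, b)` has the sign of that of `B` -/
def half (B : SL) (a b : Fin 2) : Set SL := {g | 0 < g.1 a b * B.1 a b}

lemma half_open (B : SL) (a b : Fin 2) : IsOpen (half B a b) := by
  refine isOpen_lt continuous_const ?_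
  have h1 : Continuous fun g : SL => g.1 a b :=
    (continuous_subtype_val (p := fun A : Matrix (Fin 2) (Fin 2) ℝ => A.det = 1)).matrix_elem a b
  exact h1.mul continuous_const

lemma half_neg {B : SL} {a b : Fin 2} {g : SL} (hg : g ∈ half B a b) : -g ∉ half B a b := by
  intro h
  have h1 : 0 < g.1 a b * B.1 a b := hg
  have h2 : 0 < (-g).1 a b * B.1 a b := h
  rw [show (-g).1 a b = -(g.1 a b) from rfl] at h2
  linarith [neg_mul (g.1 a b) (B.1 a b)]

lemma exists_entry (B : SL) : ∃ a b, B.1 a b ≠ 0 := by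
  by_contra h
  push Not at h
  have h1 := B.2
  rw [Matrix.det_fin_two, h 0 0, h 0 1] at h1
  norm_num at h1

/-- a local section near the class of `B` -/
lemma exists_section (B : SL) : ∃ l : PSL → SL, (∀ s, pr (l s) = s) ∧
    Tendsto l (𝓝 (pr B)) (𝓝 B) := by
  classical
  obtain ⟨a, b, hab⟩ := exists_entry B
  have hs : ∀ s : PSL, ∃ g : SL, pr g = s ∧ (s ∈ pr '' half B a b → g ∈ half B a b) := by
    intro s
    by_cases h : s ∈ pr '' half B a b
    · obtain ⟨g, hg, rfl⟩ := h
      exact ⟨g, rfl, fun _ => hg⟩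
    · obtain ⟨g, hg⟩ := QuotientGroup.mk_surjective s
      exact ⟨g, hg, fun h' => absurd h' h⟩
  choose l hl hl2 using hs
  refine ⟨l, hl, ?_⟩
  rw [tendsto_def]
  intro U hU
  obtain ⟨V, hVU, hV, hBV⟩ := mem_nhds_iff.1 hU
  have hB : B ∈ half B a b := by
    show 0 < B.1 a b * B.1 a b
    exact mul_self_pos.2 hab
  have h1 : pr '' (V ∩ half B a b) ∈ 𝓝 (pr B) :=
    (pr_open _ (hV.inter (half_open B a b))).mem_nhds ⟨B, ⟨hBV, hB⟩, rfl⟩
  filter_upwards [h1] with s hs
  obtain ⟨g, ⟨hgV, hgH⟩, rfl⟩ := hs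
  have h2 : l (pr g) ∈ half B a b := hl2 _ ⟨g, hgH, rfl⟩
  have h3 := (pr_eq_iff _ _).1 (hl (pr g))
  rcases h3 with h3 | h3
  · show l (pr g) ∈ U
    rw [← h3]
    exact hVU hgV
  · exfalso
    rw [h3] at hgH
    exact half_neg h2 hgH

/-- discreteness in `SL` -/
lemma disc_comap {Γ : Subgroup PSL} (h : DiscreteTopology Γ) :
    DiscreteTopology (Γ.comap (QuotientGroup.mk' (Subgroup.center SL))) := by
  have h1 := isOpen_discrete ({1} : Set Γ)
  obtain ⟨V, hV, hV1⟩ := isOpen_induced_iff.1 h1
  refine discreteTopology_of_isOpen_singleton_one ?_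
  rw [isOpen_induced_iff]
  refine ⟨pr ⁻¹' V ∩ half 1 0 0, (hV.preimage pr_cont).inter (half_open 1 0 0), ?_⟩
  ext ⟨g, hg⟩
  constructor
  · rintro ⟨hgV, hgH⟩
    have h2 : (⟨pr g, hg⟩ : Γ) ∈ ((fun x : Γ => (x : PSL)) ⁻¹' V) := hgV
    rw [hV1] at h2
    have h3 : pr g = pr 1 := congrArg Subtype.val h2
    rcases (pr_eq_iff _ _).1 h3 with h4 | h4
    · apply Subtype.ext
      exact h4.symm
    · exfalso
      have h5 : g = -1 := by rw [h4, neg_neg]
      have h6 : (0 : ℝ) < g.1 0 0 * (1 : SL).1 0 0 := hgH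
      rw [h5] at h6
      have h7 : ((-1 : SL)).1 0 0 = -1 := by
        rw [show ((-1 : SL)).1 0 0 = -((1 : SL).1 0 0) from rfl]
        simp
      rw [h7] at h6
      simp at h6
      linarith
  · intro h2
    have h3 : g = 1 := congrArg Subtype.val h2
    subst h3
    constructor
    · have h4 : (1 : Γ) ∈ ((fun x : Γ => (x : PSL)) ⁻¹' V) := by
        rw [hV1]
        rfl
      exact h4
    · show (0 : ℝ) < (1 : SL).1 0 0 * (1 : SL).1 0 0
      simp

/-- **Task FE-18.** -/
theorem t_LIFT : S_LIFT := by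
  classical
  intro Γn Γ Sn S μn μ hD
  -- lifts of the letters of the limit and local sections
  have hl : ∀ i : S, ∃ (B : SL) (l : PSL → SL), pr B = i ∧ (∀ s, pr (l s) = s) ∧
      Tendsto l (𝓝 (i : PSL)) (𝓝 B) := by
    intro i
    obtain ⟨B, hB⟩ := QuotientGroup.mk_surjective (i : PSL)
    obtain ⟨l, hl1, hl2⟩ := exists_section B
    refine ⟨B, l, hB, hl1, ?_⟩
    rw [← hB]
    exact hl2
  choose σ l hσ hl1 hl2 using hl
  have hs : ∀ i : S, ∃ a : ℕ → PSL, (∀ n, a n ∈ Sn n) ∧ Tendsto a atTop (𝓝 (i : PSL)) :=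
    fun i => hD.geo_S.1 i i.2
  choose s hs1 hs2 using hs
  let e : ∀ n, S → Sn n := fun n i => ⟨s i n, hs1 i n⟩
  have hinj : ∀ᶠ n in atTop, Function.Injective (e n) := by
    have h1 : ∀ i k : S, ∀ᶠ n in atTop, s i n = s k n → i = k := by
      intro i k
      by_cases hik : i = k
      · exact Eventually.of_forall fun _ _ => hik
      · have h2 : (i : PSL) ≠ k := fun h => hik (Subtype.ext h)
        have h4 : {x : PSL × PSL | x.1 ≠ x.2} ∈ 𝓝 ((i : PSL), (k : PSL)) :=
          (isOpen_ne_fun continuous_fst continuous_snd).mem_nhds h2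
        have h5 := ((hs2 i).prodMk_nhds (hs2 k)).eventually h4
        filter_upwards [h5] with n hn h3
        exact absurd h3 hn
    have h2 := eventually_all.2 fun i => eventually_all.2 (h1 i)
    filter_upwards [h2] with n hn i k hik
    exact hn i k (congrArg Subtype.val hik)
  have hτ : ∀ n (j : Sn n), ∃ g : SL, pr g = j ∧
      ∀ i, e n i = j → Function.Injective (e n) → g = l i j := by
    intro n j
    by_cases h : ∃ i, e n i = j
    · obtain ⟨i, hi⟩ := h
      refine ⟨l i j, hl1 i j, fun k hk hinj => ?_⟩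
      rw [hinj (hi.trans hk.symm)]
    · obtain ⟨g, hg⟩ := QuotientGroup.mk_surjective (j : PSL)
      exact ⟨g, hg, fun i hi => absurd ⟨i, hi⟩ h⟩
  choose τ hτ1 hτ2 using hτ
  refine ⟨fun n => (Γn n).comap (QuotientGroup.mk' (Subgroup.center SL)),
    Γ.comap (QuotientGroup.mk' (Subgroup.center SL)), σ, τ, e, hσ, hτ1, ?_⟩
  refine
    { disc := disc_comap hD.fuchsian
      lim := ?_
      mem := ?_
      mem_n := ?_
      pr := ?_
      pr_n := ?_
      inj := hinj
      letters := ?_
      weights := ?_ }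
  · intro φ a b hφ ha hab
    exact hD.geo.2 φ (fun k => pr (a k)) (pr b) hφ ha ((pr_cont.tendsto b).comp hab)
  · intro i
    show pr (σ i) ∈ Γ
    rw [hσ i, ← hD.gen]
    exact Subgroup.subset_closure i.2
  · intro n j
    show pr (τ n j) ∈ Γn n
    rw [hτ1 n j, ← hD.gen_n n]
    exact Subgroup.subset_closure j.2
  · exact ⟨fun i => hD.prob.nonneg _, by
      rw [← hD.prob.sum]
      exact Finset.sum_coe_sort S μ⟩
  · exact fun n => ⟨fun i => (hD.prob_n n).nonneg _, by
      rw [← (hD.prob_n n).sum]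
      exact Finset.sum_coe_sort (Sn n) (μn n)⟩
  · intro i
    have h1 : Tendsto (fun n => l i (s i n)) atTop (𝓝 (σ i)) := (hl2 i).comp (hs2 i)
    refine h1.congr' ?_
    filter_upwards [hinj] with n hn
    exact (hτ2 n (e n i) i rfl hn).symm
  · intro i
    exact hD.weights (s i) i (hs1 i) i.2 (hs2 i)

end Pool.Agent.K1H12.FE
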